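import Mathlib

set_option autoImplicit false

/-!
# Project DF (MP_0820eb_co): abelian difference sets with fixed lambda have density zero

THEOREM. For every `lam ≥ 1` the set of the sizes `k` of the abelian `(v, k, lam)` difference sets has
natural density zero.

PROOF. Let `D` be such a difference set in `G`, `n = k - lam` (not a square), `p > lam` a prime divisor of
`n`. By the multiplier theorem `p D = D + g` (S_FROB, S_SSQ, S_SHF). Let `u > lam` be a prime divisor of
`v` with `p ^ j = -1` modulo `u`. A homomorphism `pi : G → ZMod u` (S_QUO) maps `D` to a multiset which is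
a translate of its negative; so after a translation all its character values are real with the square `n`,
and their sum is an integer, `0` as `√n` is irrational; this gives `u ∣ k` (S_CHR), `u ∣ lam`,
contradiction (S_EXC). So for `p ∣ k - lam` no prime `u`, modulo which `p` is not a square, divides
`k² - k + lam`; there are many such `u` (S_RES) and a sieve (S_SIV) gives density zero for each `p`, and
almost all `k - lam` have a prime divisor `p > 4 lam` (S_SIV again).
-/

namespace Pool.Agent.L7h47.DF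

/-- `D` is a `(v, k, lam)` difference set in the finite abelian group `G`. -/
def IsDS (G : Type) [AddCommGroup G] [Fintype G] [DecidableEq G] (k lam : ℕ) (D : Finset G) : Prop :=
  D.card = k ∧ ∀ g : G, g ≠ 0 → ((D ×ˢ D).filter fun e => e.1 - e.2 = g).card = lam

/-- `k` is the size of an abelian `(v, k, lam)` difference set. -/
def Siz (lam k : ℕ) : Prop :=
  ∃ (G : Type) (_ : AddCommGroup G) (_ : Fintype G) (_ : DecidableEq G) (D : Finset G), IsDS G k lam D

/-- PAR (30 lines). Counting pairs. -/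
def S_PAR : Prop := ∀ (G : Type) [AddCommGroup G] [Fintype G] [DecidableEq G] (k lam : ℕ)
  (D : Finset G), IsDS G k lam D → k * k = k + lam * (Fintype.card G - 1)

/-- FROB (80 lines). Proof: in `A = AddMonoidAlgebra (ZMod p) G` (commutative, characteristic `p`) let
`x = ∑ d ∈ D, single d 1`, `y = ∑ d ∈ D, single (-d) 1`, `z` the sum of all `single g 1`. Then
`x ^ p = ∑ d ∈ D, single (p • d) 1` (`sum_pow_char`), `x * y = (k - lam) • 1 + lam • z = lam • z`,
`x * z = k • z`, so `x ^ p * y = x ^ (p - 1) * (lam • z) = (k ^ (p - 1) * lam) • z`. In `ZMod p`: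
`k = lam ≠ 0` (as `0 < lam < p`), `k ^ (p - 1) = 1`. Compare the coefficients at `g`. -/
def S_FROB : Prop := ∀ (G : Type) [AddCommGroup G] [Fintype G] [DecidableEq G] (k lam : ℕ)
  (D : Finset G), IsDS G k lam D → ∀ p : ℕ, p.Prime → 0 < lam → lam < p → lam < k → p ∣ k - lam →
  ∀ g : G, ((D ×ˢ D).filter fun e => p • e.1 - e.2 = g).card ≡ lam [MOD p]

/-- SSQ (120 lines; hypothesis S_PAR). Let `F g` be the number in S_FROB, `n = k - lam`. Proof:
`F g ≥ lam` because `F g ≡ lam`, `lam < p`; so `F g = lam + p * S g`, `S g ≥ 0`. Sum over `g`: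
`k * k = lam * v + p * ∑ S`, so `p * ∑ S = n` (S_PAR). For `y : G`:
`∑ x, F x * F (x + y)` = the number of `(d, e, d', e')` with `p d' - e' = p d - e + y`, that is
`p (d' - d) = (e' - e) + y`; with `A z` = the number of `(d, d')` with `d' - d = z`
(`A 0 = k = lam + n`, `A z = lam` for `z ≠ 0`) this is `∑ z, A z * A (p z - y) =
lam² v + 2 lam n + (if y = 0 then n² else 0)` (`z ↦ p z` is bijective). Inserting `F = lam + p S`:
`p² ∑ x, S x * S (x + y) = (if y = 0 then n² else 0)`. So for `y ≠ 0` all `S x * S (x + y) = 0`: `S` is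
nonzero at one `g` only (at one, as `n > 0`), and `p * S g = n`. -/
def S_SSQ : Prop := ∀ (G : Type) [AddCommGroup G] [Fintype G] [DecidableEq G] (k lam : ℕ)
  (D : Finset G), IsDS G k lam D → ∀ p : ℕ, p.Prime → lam < p → lam < k →
  (Fintype.card G).Coprime p →
  (∀ g : G, ((D ×ˢ D).filter fun e => p • e.1 - e.2 = g).card ≡ lam [MOD p]) →
  ∃ g0 : G, ∀ g : G, ((D ×ˢ D).filter fun e => p • e.1 - e.2 = g).card =
    lam + (if g = g0 then k - lam else 0)

/-- SHF (80 lines). Proof: for `y : G` count the `(d, e, e')` in `D³` with `p d - e + e' = y` in two ways: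
`∑ e' ∈ D, F (y - e') = k lam + (k - lam) [y - g0 ∈ D]` and
`∑ d ∈ D, A (y - p d) = k lam + (k - lam) #{d ∈ D : p d = y}`. -/
def S_SHF : Prop := ∀ (G : Type) [AddCommGroup G] [Fintype G] [DecidableEq G] (k lam : ℕ)
  (D : Finset G), IsDS G k lam D → ∀ p : ℕ, lam < k → ∀ g0 : G,
  (∀ g : G, ((D ×ˢ D).filter fun e => p • e.1 - e.2 = g).card =
    lam + (if g = g0 then k - lam else 0)) →
  D.image (fun d => p • d) = D.image (fun d => d + g0)

/-- ITR (40 lines), no hypotheses. Iterating (for `p` coprime to the order of `G` the map `d ↦ p d` is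
injective). Induction on `j`. -/
def S_ITR : Prop := ∀ (G : Type) [AddCommGroup G] [Fintype G] [DecidableEq G] (D : Finset G) (p : ℕ)
  (g0 : G), D.image (fun d => p • d) = D.image (fun d => d + g0) → ∀ j : ℕ, ∃ g1 : G,
    D.image (fun d => p ^ j • d) = D.image (fun d => d + g1)

/-- QUO (50 lines). Proof: `g ↦ u g` is not injective (Cauchy), so not surjective; `G ⧸ u G` is a nonzero
vector space over `ZMod u` (`AddCommGroup.zmodModule`), it has a nonzero linear form. -/
def S_QUO : Prop := ∀ (G : Type) [AddCommGroup G] [Fintype G] (u : ℕ), u.Prime →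
  u ∣ Fintype.card G → ∃ f : G →+ ZMod u, Function.Surjective f

/-- CHR (130 lines). Proof: `ψ` a primitive additive character of `ZMod u` with complex values
(`ZMod.stdAddChar`), `h = c / 2`, `E t = ψ (t h) * ∑ d ∈ D, ψ (t f(d))`. For `t ≠ 0`:
`conj (E t) = E t` (hypothesis), `E t * conj (E t) = ∑ d e ∈ D, ψ (t f(d - e)) = k + lam ∑ g ≠ 0, ψ (t f(g))
= k - lam`. So `E t` is real with square `n = k - lam`: `E t = √n` or `-√n`. On the other hand
`∑ t, E t = u #{d ∈ D : f d + h = 0}`, `E 0 = k`, so `∑ t ≠ 0, E t` is an integer and an integer multiple of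
the irrational number `√n`: it is 0, so `u` divides `k`. -/
def S_CHR : Prop := ∀ (G : Type) [AddCommGroup G] [Fintype G] [DecidableEq G] (k lam : ℕ)
  (D : Finset G), IsDS G k lam D → lam < k → ¬ IsSquare (k - lam) → ∀ u : ℕ, u.Prime → u ≠ 2 →
  ∀ f : G →+ ZMod u, Function.Surjective f → ∀ c : ZMod u,
  (∀ i : ZMod u, (D.filter fun d => f d = -i).card = (D.filter fun d => f d + c = i).card) → u ∣ k

/-- EXC (70 lines; hypotheses S_PAR S_FROB S_SSQ S_SHF S_ITR S_QUO S_CHR). Proof: `lam * v = k² - k + lam`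
(`v` = order of `G`), so `u ∣ v`; `p` does not divide `v` (otherwise `p ∣ lam²`). `j = (u - 1) / 2`:
`p ^ j = -1` in `ZMod u` (`ZMod.pow_div_two_eq_neg_one_or_one`, `ZMod.euler_criterion`). Multiplication by
`p ^ j` is injective on `G`, so S_ITR gives the hypothesis of S_CHR with `c = f g1`. So `u ∣ k`, `u ∣ lam`. -/
def S_EXC : Prop := ∀ lam k p u : ℕ, 0 < lam → lam < k → Siz lam k → ¬ IsSquare (k - lam) →
  p.Prime → lam < p → p ∣ k - lam → u.Prime → u ≠ 2 → lam < u → u ∣ k * k - k + lam →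
  ¬ IsSquare (p : ZMod u) → False

/-- RES (90 lines). Proof: `q = 4 (4 lam - 1) p`, `a = 1` modulo `4 (4 lam - 1)` and `a` not a square modulo
`p` (Chinese remainder theorem; `p` is odd and does not divide `4 lam - 1 < p`). For a prime `u = a` modulo
`q`: `1 - 4 lam` is a square modulo `u` (`jacobiSym.quadratic_reciprocity_one_mod_four`, `u = 1` modulo
`4 (4 lam - 1)`), so `x² - x + lam` has a root; `p` is not a square
(`ZMod.exists_sq_eq_prime_iff_of_mod_four_eq_one`). -/
def S_RES : Prop := ∀ lam p : ℕ, 0 < lam → p.Prime → 4 * lam < p → ∃ (q : ℕ) (a : ZMod q), 0 < q ∧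
  IsUnit a ∧ ∀ u : ℕ, u.Prime → (u : ZMod q) = a → lam < u → u ≠ 2 →
    ¬ IsSquare (p : ZMod u) ∧ ∃ r : ℕ, ∀ k : ℕ, k ≡ r [MOD u] → u ∣ k * k - k + lam

/-- DIV (60 lines; `Pool.Agent.Helper591.APRec.not_summable_g`). The product of the `1 - 1/u` over the
primes in a residue class is 0. (`1 - x ≤ exp (-x)`.) -/
def S_DIV : Prop := ∀ (q : ℕ) (a : ZMod q), 0 < q → IsUnit a → ∀ (B : ℕ) (ε : ℝ), 0 < ε →
  ∃ U : Finset ℕ, (∀ u ∈ U, u.Prime ∧ B < u ∧ (u : ZMod q) = a) ∧ ∏ u ∈ U, (1 - 1 / (u : ℝ)) ≤ ε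

/-- CRT (80 lines). For a finite set `U` of primes at most `∏ (1 - 1/u) X + C` numbers `k ≤ X` avoid
the classes `r u` modulo `u`. Proof: with `M = ∏ u` exactly `∏ (u - 1)` of the numbers in
`[0, M)` do (Chinese remainder theorem, e.g. induction on `U`), the condition has period `M`
(`Nat.filter_Ico_card_eq_of_periodic`), `C = M`. -/
def S_CRT : Prop := ∀ (U : Finset ℕ) (r : ℕ → ℕ), (∀ u ∈ U, u.Prime) → ∃ C : ℝ, ∀ X : ℕ,
  (((Finset.range (X + 1)).filter fun k => ∀ u ∈ U, ¬ k ≡ r u [MOD u]).card : ℝ) ≤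
    (∏ u ∈ U, (1 - 1 / (u : ℝ))) * X + C

/-- FIN (90 lines; hypotheses S_EXC S_RES S_DIV S_CRT; helper47). -/
def S_FIN : Prop := ∀ lam : ℕ, 0 < lam → ∀ ε : ℝ, 0 < ε → ∃ X0 : ℕ, ∀ X : ℕ, X0 ≤ X →
  (Nat.card {k : ℕ // k ≤ X ∧ Siz lam k} : ℝ) ≤ ε * X

end Pool.Agent.L7h47.DF
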