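import Pool.Agent.L7h47.DF.Stm

/-! # Project DF: the densities -/

set_option autoImplicit false

namespace Pool.Agent.L7h47.DF

open Filter Topology

/-- The sizes have density zero. -/
lemma tendsto_k (hF : S_FIN) (lam : ℕ) (hl : 0 < lam) :
    Tendsto (fun X : ℕ => (Nat.card {k : ℕ // k ≤ X ∧ Siz lam k} : ℝ) / X) atTop (𝓝 0) := by
  rw [Metric.tendsto_atTop]
  intro ε hε
  obtain ⟨X0, hX0⟩ := hF lam hl (ε / 2) (by positivity)
  refine ⟨max X0 1, fun X hX => ?_⟩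
  have h1 := hX0 X (le_of_max_le_left hX)
  have hX1 : (0 : ℝ) < X := by exact_mod_cast lt_of_lt_of_le one_pos (le_of_max_le_right hX)
  rw [Real.dist_eq, sub_zero, abs_of_nonneg (by positivity), div_lt_iff₀ hX1]
  nlinarith

/-- The group orders. -/
def Ord (lam v : ℕ) : Prop :=
  ∃ (k : ℕ) (G : Type) (_ : AddCommGroup G) (_ : Fintype G) (_ : DecidableEq G) (D : Finset G),
    Fintype.card G = v ∧ IsDS G k lam D

lemma ord_size (hP : S_PAR) (lam v : ℕ) (h : Ord lam v) :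
    ∃ k, Siz lam k ∧ k * k = k + lam * (v - 1) ∧ 0 < v := by
  obtain ⟨k, G, i1, i2, i3, D, hv, hD⟩ := h
  refine ⟨k, ⟨G, i1, i2, i3, D, hD⟩, ?_, ?_⟩
  · rw [← hv]
    exact hP G k lam D hD
  · rw [← hv]
    exact Fintype.card_pos_iff.2 ⟨0⟩

lemma tendsto_v (hF : S_FIN) (hP : S_PAR) (lam : ℕ) (hl : 0 < lam) :
    Tendsto (fun X : ℕ => (Nat.card {v : ℕ // v ≤ X ∧ Ord lam v} : ℝ) / √(X : ℝ)) atTop
      (𝓝 0) := by
  classical
  rw [Metric.tendsto_atTop]
  intro ε hε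
  obtain ⟨X0, hX0⟩ := hF lam hl (ε / (2 * (lam + 2))) (by positivity)
  refine ⟨max (X0 * X0) 1, fun X hX => ?_⟩
  have hXX : X0 * X0 ≤ X := le_of_max_le_left hX
  have hX1 : 1 ≤ X := le_of_max_le_right hX
  have hXr : (1 : ℝ) ≤ X := by exact_mod_cast hX1
  set Y := Nat.sqrt (lam * X) + 1 with hY
  have hYX0 : X0 ≤ Y := by
    have : X0 ≤ Nat.sqrt (lam * X) := by
      rw [Nat.le_sqrt]
      exact hXX.trans (Nat.le_mul_of_pos_left X hl)
    omega
  have h1 := hX0 Y hYX0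
  have hinj : Nat.card {v : ℕ // v ≤ X ∧ Ord lam v} ≤ Nat.card {k : ℕ // k ≤ Y ∧ Siz lam k} := by
    have hfin : Finite {k : ℕ // k ≤ Y ∧ Siz lam k} :=
      Finite.of_injective (fun k => (⟨k.1, Nat.lt_succ_of_le k.2.1⟩ : Fin (Y + 1)))
        (fun a b h => Subtype.ext (by simpa using h))
    choose! g hg using fun (v : ℕ) (h : Ord lam v) => ord_size hP lam v h
    refine Nat.card_le_card_of_injective (fun v => (⟨g v.1, ?_, (hg v.1 v.2.2).1⟩ :
      {k : ℕ // k ≤ Y ∧ Siz lam k})) ?_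
    · obtain ⟨-, h2, h3⟩ := hg v.1 v.2.2
      have h4 := v.2.1
      set k := g v.1
      have h5 : (k - 1) * (k - 1) ≤ lam * X := by
        have h6 : lam * (v.1 - 1) ≤ lam * X := Nat.mul_le_mul_left _ (by omega)
        rcases Nat.eq_zero_or_pos k with hk | hk
        · rw [hk]
          simp
        · obtain ⟨m, hm⟩ : ∃ m, k = m + 1 := ⟨k - 1, by omega⟩
          rw [hm] at h2 ⊢
          rw [Nat.add_sub_cancel]
          nlinarith
      have h7 := Nat.le_sqrt.2 h5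
      omega
    · intro a b hab
      have hab' : g a.1 = g b.1 := congrArg Subtype.val hab
      obtain ⟨-, h2, h3⟩ := hg a.1 a.2.2
      obtain ⟨-, h4, h5⟩ := hg b.1 b.2.2
      rw [← hab'] at h4
      have h6 : lam * (a.1 - 1) = lam * (b.1 - 1) := by omega
      have h7 := Nat.eq_of_mul_eq_mul_left hl h6
      exact Subtype.ext (by omega)
  have h2 : (Nat.card {v : ℕ // v ≤ X ∧ Ord lam v} : ℝ) ≤ ε / (2 * (lam + 2)) * Y :=
    le_trans (by exact_mod_cast hinj) h1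
  have hsX : 1 ≤ √(X : ℝ) := by
    rw [Real.one_le_sqrt]
    exact hXr
  have hYle : (Y : ℝ) ≤ (lam + 2) * √(X : ℝ) := by
    have h3 : ((Nat.sqrt (lam * X) : ℕ) : ℝ) ≤ √((lam * X : ℕ) : ℝ) := Real.nat_sqrt_le_real_sqrt
    have h4 : √((lam * X : ℕ) : ℝ) ≤ lam * √(X : ℝ) := by
      push_cast
      rw [Real.sqrt_mul (by positivity)]
      refine mul_le_mul_of_nonneg_right ?_ (Real.sqrt_nonneg _)
      rw [Real.sqrt_le_left (by positivity)]
      have : (1 : ℝ) ≤ lam := by exact_mod_cast hl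
      nlinarith
    rw [hY]
    push_cast
    linarith
  rw [Real.dist_eq, sub_zero, abs_of_nonneg (by positivity), div_lt_iff₀ (by linarith)]
  calc (Nat.card {v : ℕ // v ≤ X ∧ Ord lam v} : ℝ) ≤ ε / (2 * (lam + 2)) * Y := h2
    _ ≤ ε / (2 * (lam + 2)) * ((lam + 2) * √(X : ℝ)) :=
        mul_le_mul_of_nonneg_left hYle (by positivity)
    _ = ε / 2 * √(X : ℝ) := by
        field_simp
    _ < ε * √(X : ℝ) := by nlinarith

end Pool.Agent.L7h47.DF
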