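import Pool.Agent.L7h47.DF.Stm

/-! # Project DF, part FIN -/

set_option autoImplicit false

namespace Pool.Agent.L7h47.DF

open Classical in
/-- The bound for one prime `p`. -/
lemma bound_p (hE : S_EXC) (hR : S_RES) (hD : S_DIV) (hC : S_CRT) (lam p : ℕ) (hl : 0 < lam)
    (hp : p.Prime) (hlp : 4 * lam < p) (ε : ℝ) (hε : 0 < ε) : ∃ C : ℝ, ∀ X : ℕ,
    (((Finset.range (X + 1)).filter fun k => lam < k ∧ Siz lam k ∧ ¬ IsSquare (k - lam) ∧
      p ∣ k - lam).card : ℝ) ≤ ε * X + C := by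
  obtain ⟨q, a, hq, ha, hu⟩ := hR lam p hl hp hlp
  obtain ⟨U, hU, hprod⟩ := hD q a hq ha (max lam 2) ε hε
  choose! r hr using fun (u : ℕ) (h : u ∈ U) =>
    (hu u (hU u h).1 (hU u h).2.2 (lt_of_le_of_lt (le_max_left _ _) (hU u h).2.1)
      (by have := lt_of_le_of_lt (le_max_right _ _) (hU u h).2.1; omega)).2
  obtain ⟨C, hCr⟩ := hC U r (fun u h => (hU u h).1)
  refine ⟨C, fun X => ?_⟩
  have hsub : ((Finset.range (X + 1)).filter fun k => lam < k ∧ Siz lam k ∧
      ¬ IsSquare (k - lam) ∧ p ∣ k - lam) ⊆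
      (Finset.range (X + 1)).filter fun k => ∀ u ∈ U, ¬ k ≡ r u [MOD u] := by
    intro k hk
    rw [Finset.mem_filter] at hk ⊢
    obtain ⟨hkX, hlk, hS, hsq, hpk⟩ := hk
    refine ⟨hkX, fun u hu' hmod => ?_⟩
    have hul : lam < u := lt_of_le_of_lt (le_max_left _ _) (hU u hu').2.1
    have hu2 : u ≠ 2 := by
      have := lt_of_le_of_lt (le_max_right _ _) (hU u hu').2.1
      omega
    exact hE lam k p u hl hlk hS hsq hp (by omega) hpk (hU u hu').1 hu2 hul (hr u hu' k hmod)
      (hu u (hU u hu').1 (hU u hu').2.2 hul hu2).1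
  have h1 : (((Finset.range (X + 1)).filter fun k => lam < k ∧ Siz lam k ∧ ¬ IsSquare (k - lam) ∧
      p ∣ k - lam).card : ℝ) ≤
      (((Finset.range (X + 1)).filter fun k => ∀ u ∈ U, ¬ k ≡ r u [MOD u]).card : ℝ) := by
    exact_mod_cast Finset.card_le_card hsub
  refine h1.trans ((hCr X).trans ?_)
  have : (∏ u ∈ U, (1 - 1 / (u : ℝ))) * X ≤ ε * X :=
    mul_le_mul_of_nonneg_right hprod (Nat.cast_nonneg X)
  linarith

open Classical in
/-- The squares. -/
lemma bound_sq (lam X : ℕ) :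
    ((Finset.range (X + 1)).filter fun k => lam < k ∧ IsSquare (k - lam)).card ≤
      Nat.sqrt X + 1 := by
  have h : ((Finset.range (X + 1)).filter fun k => lam < k ∧ IsSquare (k - lam)) ⊆
      (Finset.range (Nat.sqrt X + 1)).image fun m => lam + m * m := by
    intro k hk
    rw [Finset.mem_filter, Finset.mem_range] at hk
    obtain ⟨hkX, hlk, m, hm⟩ := hk
    rw [Finset.mem_image]
    refine ⟨m, ?_, by omega⟩
    rw [Finset.mem_range, Nat.lt_succ_iff, Nat.le_sqrt]
    omega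
  calc _ ≤ _ := Finset.card_le_card h
    _ ≤ _ := Finset.card_image_le
    _ = _ := Finset.card_range _

/-- Part FIN. -/
theorem s_FIN (hE : S_EXC) (hR : S_RES) (hD : S_DIV) (hC : S_CRT) : S_FIN := by
  classical
  intro lam hl ε hε
  obtain ⟨U, hU, hprod⟩ := hD 1 0 one_pos (isUnit_of_subsingleton _) (4 * lam) (ε / 4) (by positivity)
  obtain ⟨C0, hC0⟩ := hC U (fun _ => lam) (fun u h => (hU u h).1)
  have hcard : (0 : ℝ) < U.card + 1 := by positivity
  have hp : ∀ p : ℕ, ∃ C : ℝ, p ∈ U → ∀ X : ℕ,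
      (((Finset.range (X + 1)).filter fun k => lam < k ∧ Siz lam k ∧ ¬ IsSquare (k - lam) ∧
        p ∣ k - lam).card : ℝ) ≤ ε / (4 * (U.card + 1)) * X + C := by
    intro p
    by_cases h : p ∈ U
    · obtain ⟨C, h1⟩ := bound_p hE hR hD hC lam p hl (hU p h).1 (hU p h).2.1
        (ε / (4 * (U.card + 1))) (by positivity)
      exact ⟨C, fun _ => h1⟩
    · exact ⟨0, fun h' => absurd h' h⟩
  choose Cp hCp using hp
  set K : ℝ := |C0| + ∑ p ∈ U, |Cp p| + lam + 2 with hK
  have hK0 : 0 < K := by positivity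
  obtain ⟨X0, hX0⟩ := exists_nat_gt (max (4 * K / ε) ((4 / ε) ^ 2))
  refine ⟨X0, fun X hX => ?_⟩
  have hXr : (X0 : ℝ) ≤ X := by exact_mod_cast hX
  have hX1 : 4 * K / ε < X := lt_of_lt_of_le ((le_max_left _ _).trans_lt hX0) hXr
  have hX2 : (4 / ε) ^ 2 < X := lt_of_lt_of_le ((le_max_right _ _).trans_lt hX0) hXr
  have hXpos : (0 : ℝ) < X := lt_of_le_of_lt (by positivity) hX2
  have e1 : K ≤ ε / 4 * X := by
    rw [div_lt_iff₀ hε] at hX1
    linarith
  have e2 : √(X : ℝ) ≤ ε / 4 * X := by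
    have h1 : 4 / ε < √(X : ℝ) := by
      rw [Real.lt_sqrt (by positivity)]
      exact hX2
    have h2 : √(X : ℝ) * √(X : ℝ) = X := Real.mul_self_sqrt hXpos.le
    have h3 : 0 < √(X : ℝ) := Real.sqrt_pos.2 hXpos
    rw [div_lt_iff₀ hε] at h1
    nlinarith
  have hcov : ((Finset.range (X + 1)).filter fun k => Siz lam k) ⊆
      (Finset.range (lam + 1)) ∪ (((Finset.range (X + 1)).filter fun k => lam < k ∧
        IsSquare (k - lam)) ∪ (((Finset.range (X + 1)).filter fun k => ∀ u ∈ U,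
          ¬ k ≡ lam [MOD u]) ∪ U.biUnion fun p => (Finset.range (X + 1)).filter fun k =>
            lam < k ∧ Siz lam k ∧ ¬ IsSquare (k - lam) ∧ p ∣ k - lam)) := by
    intro k hk
    rw [Finset.mem_filter] at hk
    obtain ⟨hkX, hS⟩ := hk
    simp only [Finset.mem_union, Finset.mem_filter, Finset.mem_biUnion]
    by_cases h1 : k ≤ lam
    · left
      rw [Finset.mem_range]
      omega
    · right
      by_cases h2 : IsSquare (k - lam)
      · exact Or.inl ⟨hkX, by omega, h2⟩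
      · right
        by_cases h3 : ∀ u ∈ U, ¬ k ≡ lam [MOD u]
        · exact Or.inl ⟨hkX, h3⟩
        · right
          push Not at h3
          obtain ⟨p, hpU, hpk⟩ := h3
          exact ⟨p, hpU, hkX, by omega, hS, h2, (Nat.modEq_iff_dvd' (by omega)).1 hpk.symm⟩
  have hc1 : Nat.card {k : ℕ // k ≤ X ∧ Siz lam k} =
      ((Finset.range (X + 1)).filter fun k => Siz lam k).card := by
    rw [← Nat.card_eq_finsetCard]
    refine Nat.card_congr (Equiv.subtypeEquivRight fun k => ?_)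
    rw [Finset.mem_filter, Finset.mem_range, Nat.lt_succ_iff]
  have hc2 := (Finset.card_le_card hcov).trans (Finset.card_union_le _ _)
  have hc3 := Finset.card_union_le ((Finset.range (X + 1)).filter fun k => lam < k ∧
        IsSquare (k - lam)) (((Finset.range (X + 1)).filter fun k => ∀ u ∈ U,
          ¬ k ≡ lam [MOD u]) ∪ U.biUnion fun p => (Finset.range (X + 1)).filter fun k =>
            lam < k ∧ Siz lam k ∧ ¬ IsSquare (k - lam) ∧ p ∣ k - lam)
  have hc4 := Finset.card_union_le ((Finset.range (X + 1)).filter fun k => ∀ u ∈ U,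
          ¬ k ≡ lam [MOD u]) (U.biUnion fun p => (Finset.range (X + 1)).filter fun k =>
            lam < k ∧ Siz lam k ∧ ¬ IsSquare (k - lam) ∧ p ∣ k - lam)
  have hc5 : (U.biUnion fun p => (Finset.range (X + 1)).filter fun k =>
            lam < k ∧ Siz lam k ∧ ¬ IsSquare (k - lam) ∧ p ∣ k - lam).card ≤
      ∑ p ∈ U, ((Finset.range (X + 1)).filter fun k =>
            lam < k ∧ Siz lam k ∧ ¬ IsSquare (k - lam) ∧ p ∣ k - lam).card :=
    Finset.card_biUnion_le
  have hc6 := bound_sq lam X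
  rw [Finset.card_range] at hc2
  have hs : ((Nat.sqrt X : ℕ) : ℝ) ≤ √(X : ℝ) := Real.nat_sqrt_le_real_sqrt
  have hsum : (∑ p ∈ U, (((Finset.range (X + 1)).filter fun k =>
            lam < k ∧ Siz lam k ∧ ¬ IsSquare (k - lam) ∧ p ∣ k - lam).card : ℝ)) ≤
      ε / 4 * X + ∑ p ∈ U, |Cp p| := by
    calc _ ≤ ∑ p ∈ U, (ε / (4 * (U.card + 1)) * X + |Cp p|) :=
          Finset.sum_le_sum fun p hpU => (hCp p hpU X).trans (by linarith [le_abs_self (Cp p)])
      _ = U.card * (ε / (4 * (U.card + 1)) * X) + ∑ p ∈ U, |Cp p| := by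
          rw [Finset.sum_add_distrib, Finset.sum_const, nsmul_eq_mul]
      _ ≤ _ := by
          have : (U.card : ℝ) * (ε / (4 * (U.card + 1)) * X) ≤ ε / 4 * X := by
            have e : ε / (4 * ((U.card : ℝ) + 1)) = ε / 4 / (U.card + 1) := by
              rw [div_div]
            rw [e, ← mul_assoc, mul_div_assoc']
            refine mul_le_mul_of_nonneg_right ?_ hXpos.le
            rw [div_le_iff₀ hcard]
            nlinarith
          linarith
  have hav : (((Finset.range (X + 1)).filter fun k => ∀ u ∈ U, ¬ k ≡ lam [MOD u]).card : ℝ) ≤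
      ε / 4 * X + |C0| := by
    refine (hC0 X).trans ?_
    have : (∏ u ∈ U, (1 - 1 / (u : ℝ))) * X ≤ ε / 4 * X :=
      mul_le_mul_of_nonneg_right hprod hXpos.le
    linarith [le_abs_self C0]
  rw [hc1]
  have htot : (((Finset.range (X + 1)).filter fun k => Siz lam k).card : ℝ) ≤
      (lam + 1) + ((Nat.sqrt X + 1) + ((((Finset.range (X + 1)).filter fun k => ∀ u ∈ U,
        ¬ k ≡ lam [MOD u]).card : ℝ) + ∑ p ∈ U, (((Finset.range (X + 1)).filter fun k =>
            lam < k ∧ Siz lam k ∧ ¬ IsSquare (k - lam) ∧ p ∣ k - lam).card : ℝ))) := by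
    exact_mod_cast hc2.trans (Nat.add_le_add_left (hc3.trans (Nat.add_le_add hc6
      (hc4.trans (Nat.add_le_add_left hc5 _)))) _)
  refine htot.trans ?_
  linarith

end Pool.Agent.L7h47.DF
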